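import Pool.Agent.H75.L.W662.CB.Stmts2
import Pool.Agent.H75.L.W227.CB.E2

/-!
# Project CB2, part Q9: characters normalise the core
-/

set_option autoImplicit false

open MeasureTheory Filter Topology Complex
open scoped InnerProductSpace ENNReal

namespace Pool.Agent.W532.CB2

open Pool.Agent.W662.CB

/-- the algebra behind the normalisation -/
theorem alg {K : Type} [NormedAddCommGroup K] [InnerProductSpace ℂ K] [CompleteSpace K]
    (u us T C : K →L[ℂ] K) (l : ℂ) (h1 : u * us = 1) (h2 : us * u = 1)
    (hT : u * T = l • (T * u)) (hC : T * C = C * T) :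
    T * (us * C * u) = (us * C * u) * T := by
  have h3 : T * us = l • (us * T) := by
    calc T * us = us * (u * T) * us := by rw [← mul_assoc, h2, one_mul]
      _ = l • (us * T * (u * us)) := by rw [hT]; simp only [mul_smul_comm, smul_mul_assoc, mul_assoc]
      _ = l • (us * T) := by rw [h1, mul_one]
  calc T * (us * C * u) = (T * us) * C * u := by simp only [mul_assoc]
    _ = l • (us * (T * C) * u) := by rw [h3]; simp only [smul_mul_assoc, mul_assoc]
    _ = us * C * (l • (T * u)) := by
        rw [hC]; simp only [mul_smul_comm, mul_assoc]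
    _ = (us * C * u) * T := by rw [← hT]; simp only [mul_assoc]

theorem q9 : S_Q9 := by
  intro H _ _ _ M U e he t Z hZ
  obtain ⟨huniq, hstar, hmul, -⟩ := Pool.Agent.W227.CB.e2b H
  have hs : star (e t) = e (-t) := by
    refine hstar (fun w : ℝ => Complex.exp (2 * Real.pi * I * t * w)) (e t) (e (-t)) (he t) ?_
    have h1 : (fun w : ℝ => (starRingEnd ℂ) (Complex.exp (2 * Real.pi * I * t * w))) =
        fun w : ℝ => Complex.exp (2 * Real.pi * I * ((-t : ℝ) : ℂ) * w) := by
      funext w
      have h2 : (starRingEnd ℂ) 2 = 2 := map_ofNat (starRingEnd ℂ) 2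
      rw [← Complex.exp_conj]
      congr 1
      simp [h2]
    rw [h1]
    exact he (-t)
  have hone : ∀ g : ℝ → ℂ, (∀ s, g s = 1) → IsMulOp g (1 : LR H →L[ℂ] LR H) := by
    intro g hg f
    refine Filter.Eventually.of_forall fun s => ?_
    simp [hg s]
  have h12 : e t * e (-t) = 1 := by
    refine huniq _ _ _ (hmul _ _ _ _ (he t) (he (-t))) (hone _ fun s => ?_)
    rw [← Complex.exp_add]
    have : 2 * (Real.pi : ℂ) * I * t * s + 2 * Real.pi * I * ((-t : ℝ) : ℂ) * s = 0 := by
      push_cast; ring
    rw [this, Complex.exp_zero]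
  have h21 : e (-t) * e t = 1 := by
    refine huniq _ _ _ (hmul _ _ _ _ (he (-t)) (he t)) (hone _ fun s => ?_)
    rw [← Complex.exp_add]
    have : 2 * (Real.pi : ℂ) * I * ((-t : ℝ) : ℂ) * s + 2 * Real.pi * I * t * s = 0 := by
      push_cast; ring
    rw [this, Complex.exp_zero]
  -- generators are normalised up to scalars
  have hgen : ∀ T ∈ coreGen M U, ∃ l : ℂ, e t * T = l • (T * e t) ∧ (starRingEnd ℂ) l * l = 1 := by
    rintro T (⟨x, -, hT⟩ | ⟨a, hT⟩)
    · refine ⟨1, ?_, by simp⟩
      rw [one_smul]
      refine ContinuousLinearMap.ext fun f => Lp.ext ?_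
      have a1 := he t (T f)
      have a2 := hT (e t f)
      have a3 := hT f
      have a4 := he t f
      filter_upwards [a1, a2, a3, a4] with s b1 b2 b3 b4
      show (e t (T f) : ℝ → H) s = (T (e t f) : ℝ → H) s
      rw [b1, b2, b3, b4, map_smul]
    · refine ⟨Complex.exp (2 * Real.pi * I * t * a), ?_, ?_⟩
      · refine ContinuousLinearMap.ext fun f => Lp.ext ?_
        have a1 := he t (T f)
        have a2 := hT (e t f)
        have a3 := hT f
        have a4 := (measurePreserving_sub_right (volume : Measure ℝ)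
          a).quasiMeasurePreserving.ae_eq_comp (he t f)
        have a5 := Lp.coeFn_smul (Complex.exp (2 * Real.pi * I * t * a)) (T (e t f))
        filter_upwards [a1, a2, a3, a4, a5] with s b1 b2 b3 b4 b5
        show (e t (T f) : ℝ → H) s =
          ((Complex.exp (2 * Real.pi * I * t * a) • T (e t f) : LR H) : ℝ → H) s
        rw [b5, Pi.smul_apply, b1, b2, b3]
        simp only [Function.comp] at b4
        rw [b4, smul_smul, ← Complex.exp_add]
        congr 2
        push_cast
        ring
      · rw [← Complex.exp_conj, ← Complex.exp_add]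
        have h2 : (starRingEnd ℂ) 2 = 2 := map_ofNat (starRingEnd ℂ) 2
        have : (starRingEnd ℂ) (2 * (Real.pi : ℂ) * I * t * a) + 2 * Real.pi * I * t * a = 0 := by
          simp [h2]
        rw [this, Complex.exp_zero]
  -- the commutant of the generators is normalised
  have hcen : ∀ C : LR H →L[ℂ] LR H, C ∈ StarSubalgebra.centralizer ℂ (coreGen M U) →
      e (-t) * C * e t ∈ StarSubalgebra.centralizer ℂ (coreGen M U) := by
    intro C hC
    rw [StarSubalgebra.mem_centralizer_iff] at hC ⊢
    intro T hTm
    obtain ⟨hC1, hC2⟩ := hC T hTm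
    obtain ⟨l, hl, hll⟩ := hgen T hTm
    refine ⟨alg _ _ _ _ l h12 h21 hl hC1, ?_⟩
    have h3 : star T * e (-t) = (starRingEnd ℂ) l • (e (-t) * star T) := by
      have h4 := congrArg star hl
      rw [star_mul, star_smul, star_mul, hs] at h4
      exact h4
    have h5 : e t * star T = (starRingEnd ℂ) l • (star T * e t) := by
      calc e t * star T = e t * (star T * e (-t)) * e t := by
            rw [mul_assoc, mul_assoc, h21, mul_one]
        _ = (starRingEnd ℂ) l • ((e t * e (-t)) * star T * e t) := by
            rw [h3]; simp only [mul_smul_comm, smul_mul_assoc, mul_assoc]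
        _ = (starRingEnd ℂ) l • (star T * e t) := by rw [h12, one_mul]
    exact alg _ _ _ _ _ h12 h21 h5 hC2
  -- conclusion
  have hZ' : Z ∈ StarSubalgebra.centralizer ℂ
      ((StarSubalgebra.centralizer ℂ (coreGen M U) : Set (LR H →L[ℂ] LR H))) := hZ
  rw [StarSubalgebra.mem_centralizer_iff] at hZ'
  have key : ∀ C : LR H →L[ℂ] LR H, C ∈ StarSubalgebra.centralizer ℂ (coreGen M U) →
      C * (e t * Z * e (-t)) = e t * Z * e (-t) * C := by
    intro C hC
    have h6 := (hZ' _ (hcen C hC)).1
    calc C * (e t * Z * e (-t)) = (e t * e (-t)) * C * (e t * Z * e (-t)) := by rw [h12, one_mul]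
      _ = e t * ((e (-t) * C * e t) * Z) * e (-t) := by simp only [mul_assoc]
      _ = e t * Z * e (-t) * C * (e t * e (-t)) := by rw [h6]; simp only [mul_assoc]
      _ = e t * Z * e (-t) * C := by rw [h12, mul_one]
  have hfin : e t * Z * star (e t) ∈ StarSubalgebra.centralizer ℂ
      ((StarSubalgebra.centralizer ℂ (coreGen M U) : Set (LR H →L[ℂ] LR H))) := by
    rw [StarSubalgebra.mem_centralizer_iff, hs]
    intro C hC
    exact ⟨key C hC, key (star C) (star_mem hC)⟩
  exact hfin

end Pool.Agent.W532.CB2
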